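import Pool.Agent.Helper37.OF.St

/-!
# Project OF (MP_121524_al), module LEN: the length in a free product
-/

set_option autoImplicit false

namespace Pool.Agent.Helper16.OF

open Pool.Agent.Helper37.OF Monoid Pool.Agent.Helper4.FS

universe u v w x

section

variable {G : Type w} [Group G] {I : Type x}

private theorem lp_nil' : lp ([] : List (I × G)) = 1 := rfl

private theorem lp_cons' (p : I × G) (L : List (I × G)) : lp (p :: L) = ofi p.1 p.2 * lp L := by
  unfold Pool.Agent.Helper37.OF.lp
  rw [List.map_cons, List.prod_cons]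

private theorem lp_append' (L L' : List (I × G)) : lp (L ++ L') = lp L * lp L' := by
  unfold Pool.Agent.Helper37.OF.lp
  rw [List.map_append, List.prod_append]

/-- reduced lists -/
private def Red (L : List (I × G)) : Prop :=
  (∀ p ∈ L, p.2 ≠ 1) ∧ L.IsChain (fun p q => p.1 ≠ q.1)

private theorem exists_lp (w : Fp G I) : ∃ L : List (I × G), lp L = w := by
  induction w using fp_induction with
  | h1 => exact ⟨[], rfl⟩
  | hof i g => exact ⟨[(i, g)], by rw [lp_cons', lp_nil', mul_one]⟩
  | hmul a b ha hb =>
    obtain ⟨L, rfl⟩ := ha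
    obtain ⟨L', rfl⟩ := hb
    exact ⟨L ++ L', lp_append' L L'⟩

/-- the word of a reduced list -/
private def toW (L : List (I × G)) (h : Red L) : CoprodI.Word (fun _ : I => G) where
  toList := L.map (fun p => ⟨p.1, p.2⟩)
  ne_one := by
    intro l hl
    obtain ⟨p, hp, rfl⟩ := List.mem_map.1 hl
    exact h.1 p hp
  chain_ne := by
    rw [List.isChain_map]
    exact h.2

private theorem prod_toW (L : List (I × G)) (h : Red L) : (toW L h).prod = lp L := by
  unfold CoprodI.Word.prod toW Pool.Agent.Helper37.OF.lp ofi
  simp only [List.map_map]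
  rfl

private theorem red_unique {L L' : List (I × G)} (h : Red L) (h' : Red L') (he : lp L = lp L') :
    L.length = L'.length := by
  classical
  have h1 : (toW L h).prod = (toW L' h').prod := by rw [prod_toW, prod_toW, he]
  have h2 : toW L h = toW L' h' := CoprodI.Word.equiv.symm.injective h1
  have h3 := congrArg (fun W : CoprodI.Word (fun _ : I => G) => W.toList.length) h2
  simpa [toW] using h3

private theorem red_tail {p : I × G} {L : List (I × G)} (h : Red (p :: L)) : Red L :=
  ⟨fun q hq => h.1 q (List.mem_cons_of_mem _ hq), h.2.tail⟩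

private theorem exists_red (L : List (I × G)) :
    ∃ L' : List (I × G), Red L' ∧ lp L' = lp L ∧ L'.length ≤ L.length := by
  classical
  induction L with
  | nil => exact ⟨[], ⟨by simp, by simp⟩, rfl, le_rfl⟩
  | cons p L ih =>
    obtain ⟨L', hr, he, hl⟩ := ih
    by_cases hp : p.2 = 1
    · refine ⟨L', hr, ?_, hl.trans (by simp)⟩
      rw [lp_cons', hp, ofi_one, one_mul, he]
    · cases L' with
      | nil =>
        refine ⟨[p], ⟨by simpa using hp, by simp⟩, ?_, by simp⟩
        rw [lp_cons', lp_cons', he]
      | cons q L'' =>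
        by_cases hpq : p.1 = q.1
        · by_cases hm : p.2 * q.2 = 1
          · refine ⟨L'', red_tail hr, ?_, ?_⟩
            · rw [lp_cons', ← he, lp_cons', hpq, ← mul_assoc, ← ofi_mul, hm, ofi_one, one_mul]
            · simp only [List.length_cons] at hl ⊢
              omega
          · refine ⟨(q.1, p.2 * q.2) :: L'', ⟨?_, ?_⟩, ?_, ?_⟩
            · intro r hr'
              rcases List.mem_cons.1 hr' with rfl | hr'
              · exact hm
              · exact hr.1 r (List.mem_cons_of_mem _ hr')
            · have h2 := hr.2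
              rw [List.isChain_cons] at h2 ⊢
              exact h2
            · rw [lp_cons', lp_cons', ← he, lp_cons', hpq, ← mul_assoc, ← ofi_mul]
            · simp only [List.length_cons] at hl ⊢
              omega
        · refine ⟨p :: q :: L'', ⟨?_, ?_⟩, ?_, ?_⟩
          · intro r hr'
            rcases List.mem_cons.1 hr' with rfl | hr'
            · exact hp
            · exact hr.1 r hr'
          · rw [List.isChain_cons_cons]
            exact ⟨hpq, hr.2⟩
          · rw [lp_cons', he, lp_cons']
          · simp only [List.length_cons] at hl ⊢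
            omega

end

theorem hLEN : StLEN.{w, x} := by
  intro G _ I
  classical
  have hne : ∀ a : Fp G I, ∃ n : ℕ, ∃ L : List (I × G), lp L = a ∧ L.length = n := fun a => by
    obtain ⟨L, hL⟩ := exists_lp a
    exact ⟨L.length, L, hL, rfl⟩
  have hmin : ∀ (L : List (I × G)), Nat.find (hne (lp L)) ≤ L.length := fun L =>
    Nat.find_min' _ ⟨L, rfl, rfl⟩
  refine ⟨fun a => Nat.find (hne a), ?_, ?_, ?_, ?_⟩
  · intro a b
    obtain ⟨L, hL, hLl⟩ := Nat.find_spec (hne a)
    obtain ⟨L', hL', hLl'⟩ := Nat.find_spec (hne b)
    show Nat.find (hne (a * b)) ≤ Nat.find (hne a) + Nat.find (hne b)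
    rw [← hLl, ← hLl', ← List.length_append]
    exact Nat.find_min' _ ⟨L ++ L', by rw [lp_append', hL, hL'], rfl⟩
  · intro i g
    exact Nat.find_min' _ ⟨[(i, g)], by rw [lp_cons', lp_nil', mul_one], rfl⟩
  · exact Nat.le_zero.1 (Nat.find_min' _ ⟨[], rfl, rfl⟩)
  · intro L h1 h2
    show Nat.find (hne (lp L)) = L.length
    apply le_antisymm (hmin L)
    obtain ⟨L₀, hL₀, hl₀⟩ := Nat.find_spec (hne (lp L))
    obtain ⟨L', hr, he, hl⟩ := exists_red L₀
    have h3 : L'.length = L.length := red_unique hr ⟨h1, h2⟩ (by rw [he, hL₀])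
    omega

end Pool.Agent.Helper16.OF
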